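import Pool.Agent.AFX.Stmts

set_option autoImplicit false

/-!
# Squad AFX, row FAM: all families of extensions
-/

open FirstOrder FirstOrder.Language Cardinal Set

universe u

namespace Pool.Agent.AFX.H2

open Pool.Agent.AEC

/-- FAM -/
theorem fam (hFre : FreStmt.{u}) (hHn3 : Hn3Stmt.{u}) : FamStmt.{u} := by
  intro κ
  obtain ⟨μ₀, hμ₀⟩ := hHn3 κ
  refine ⟨max μ₀ κ, ?_⟩
  rintro L K ⟨l, hl, hlμ, hcat⟩ hcomp M ι B f hM
  by_contra hJ
  have hμinf : ℵ₀ ≤ max μ₀ κ := le_trans K.aleph0_le (le_max_right _ _)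
  have hμl : max μ₀ κ ≤ l := by
    calc max μ₀ κ ≤ 2 ^ (max μ₀ κ) := (Cardinal.cantor _).le
      _ ≤ l ^ (max μ₀ κ) := Cardinal.power_le_power_right
          (le_trans (Cardinal.nat_lt_aleph0 2).le hl)
      _ = l := hlμ
  have hbad : ∃ θ, Bad K θ := by
    refine ⟨⨆ j, #(B j).α, M, ι, B, f, hM, ?_, hJ⟩
    intro j
    exact le_ciSup (Cardinal.bddAbove_range (fun j => #(B j).α)) j
  obtain ⟨θ, hθ, M', ι', B', f', hM', hB', hJ'⟩ := hμ₀ L K hbad
  apply hJ'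
  by_cases hne : Nonempty ι'
  · obtain ⟨j0⟩ := hne
    have hM'μ : #M'.α ≤ max μ₀ κ := by
      calc #M'.α ≤ #(B' j0).α := Cardinal.mk_le_of_injective (f' j0).injective
        _ ≤ θ := hB' j0
        _ ≤ μ₀ := hθ
        _ ≤ max μ₀ κ := le_max_left _ _
    obtain ⟨N, e, hN, hc⟩ := hcomp l M' ι' B' f' hM'
    refine hFre L κ K l (max μ₀ κ) (le_max_right _ _) hl hlμ hcat M' N e hM'μ hN ι' B' f' ?_ hc
    intro j
    exact (hB' j).trans (hθ.trans ((le_max_left _ _).trans hμl))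
  · refine ⟨M', fun j => absurd ⟨j⟩ hne, fun j => absurd ⟨j⟩ hne⟩

end Pool.Agent.AFX.H2
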