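import Pool.Agent.AFX.Stmts
import Pool.Agent.Helper84_AEC.LNG

set_option autoImplicit false

/-!
# Squad AFX, row LN2: change of vocabulary, with the maps
-/

open FirstOrder FirstOrder.Language Cardinal Set

universe u

namespace Pool.Agent.AFX.H2

open Pool.Agent.AEC Pool.Agent.AEC.H84

variable {L L0 : FirstOrder.Language.{u, u}}

/-- `𝒦`-embeddings do not change if the structures are replaced by equal ones -/
theorem emb_tr {κ : Cardinal.{u}} (K : AEC L κ) {M N : Type u} (iM iM' : L.Structure M)
    (iN iN' : L.Structure N) (hM : iM = iM') (hN : iN = iN')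
    (f : @FirstOrder.Language.Embedding L M N iM iN)
    (f' : @FirstOrder.Language.Embedding L M N iM' iN')
    (hf : @FirstOrder.Language.Embedding.toEmbedding L M N iM iN f =
      @FirstOrder.Language.Embedding.toEmbedding L M N iM' iN' f')
    (h : @AEC.emb L κ K M N iM iN f) : @AEC.emb L κ K M N iM' iN' f' := by
  subst hM hN
  have : f = f' := by
    cases f
    cases f'
    cases hf
    rfl
  rw [← this]
  exact h

variable (t : Tr L L0)

/-- an embedding for the old vocabulary is one for the new vocabulary -/
def backE {M N : Type u} [iM : L.Structure M] [iN : L.Structure N] (f : M ↪[L] N) :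
    @FirstOrder.Language.Embedding L0 M N (back t M) (back t N) :=
  @FirstOrder.Language.Embedding.mk L0 M N (back t M) (back t N) f.toEmbedding
    (fun {n} F x => f.map_fun ((t.f n).symm F) x) (fun {n} R x => f.map_rel ((t.r n).symm R) x)

/-- an embedding for the new vocabulary is one for the old vocabulary -/
def unE {M N : Type u} [iM : L.Structure M] [iN : L.Structure N]
    (e : @FirstOrder.Language.Embedding L0 M N (back t M) (back t N)) : M ↪[L] N where
  toEmbedding := @FirstOrder.Language.Embedding.toEmbedding L0 M N (back t M) (back t N) e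
  map_fun' F x := by
    have h := @FirstOrder.Language.Embedding.map_fun' L0 M N (back t M) (back t N) e _ (t.f _ F) x
    change (@FirstOrder.Language.Embedding.toEmbedding L0 M N (back t M) (back t N) e)
      (@Structure.funMap L M _ _ ((t.f _).symm (t.f _ F)) x) =
      @Structure.funMap L N _ _ ((t.f _).symm (t.f _ F))
        ((@FirstOrder.Language.Embedding.toEmbedding L0 M N (back t M) (back t N) e) ∘ x) at h
    rw [Equiv.symm_apply_apply] at h
    exact h
  map_rel' R x := by
    have h := @FirstOrder.Language.Embedding.map_rel' L0 M N (back t M) (back t N) e _ (t.r _ R) x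
    change @Structure.RelMap L N _ _ ((t.r _).symm (t.r _ R))
        ((@FirstOrder.Language.Embedding.toEmbedding L0 M N (back t M) (back t N) e) ∘ x) ↔
      @Structure.RelMap L M _ _ ((t.r _).symm (t.r _ R)) x at h
    rw [Equiv.symm_apply_apply] at h
    exact h

/-- the identity is an isomorphism onto the structure renamed twice -/
def idQ (M : Type u) [i0 : L0.Structure M] :
    @FirstOrder.Language.Equiv L0 M (Ren t M) i0 (@back L L0 t (Ren t M) (renStr t M)) :=
  @FirstOrder.Language.Equiv.mk L0 M (Ren t M) i0 (@back L L0 t (Ren t M) (renStr t M))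
    (Equiv.refl M)
    (fun {n} F x => by
      change @Structure.funMap L0 M _ n F x = @Structure.funMap L0 M _ n (t.f n ((t.f n).symm F)) x
      rw [Equiv.apply_symm_apply])
    (fun {n} R x => by
      change @Structure.RelMap L0 M _ n (t.r n ((t.r n).symm R)) x ↔ @Structure.RelMap L0 M _ n R x
      rw [Equiv.apply_symm_apply])

variable {κ : Cardinal.{u}} (K : AEC L κ)

theorem fwd (A B : K.Mod) (f : K.Hom A B) :
    ∃ g : (renK t K).Hom (ofM t K A) (ofM t K B), ∀ x : A.α, g x = f x := by
  refine ⟨@AEC.Hom.mk L0 κ (renK t K) (ofM t K A) (ofM t K B)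
    (@backE L L0 t A.α B.α A.str B.str f.toEmb) ?_, fun x => rfl⟩
  exact emb_tr K A.str _ B.str _ (ren_back t A.α).symm (ren_back t B.α).symm f.toEmb
    (@renE L L0 t A.α B.α (back t A.α) (back t B.α) (@backE L L0 t A.α B.α A.str B.str f.toEmb))
    rfl f.emb

theorem bwd (A B : K.Mod) (g : (renK t K).Hom (ofM t K A) (ofM t K B)) :
    ∃ f : K.Hom A B, ∀ x : A.α, g x = f x := by
  refine ⟨⟨unE t g.toEmb, ?_⟩, fun x => rfl⟩
  exact emb_tr K _ A.str _ B.str (ren_back t A.α) (ren_back t B.α)
    (@renE L L0 t A.α B.α (back t A.α) (back t B.α) g.toEmb) (unE t g.toEmb) rfl g.emb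

theorem srj (A0 : (renK t K).Mod) :
    ∃ (A : K.Mod) (f : (renK t K).Hom A0 (ofM t K A)), Function.Surjective f := by
  refine ⟨toM t K A0, AEC.Hom.ofEquiv (A := A0) (B := ofM t K (toM t K A0)) (idQ t A0.α), ?_⟩
  intro y
  exact ⟨y, rfl⟩

/-- LN2 -/
theorem ln2 : Ln2Stmt.{u} := by
  intro L κ K
  have hf : ∀ n, Nonempty (L.Functions n ↪ κ.out) := by
    intro n
    rw [← Cardinal.le_def, Cardinal.mk_out]
    refine le_trans ?_ K.card_le
    unfold Language.card
    exact Cardinal.mk_le_of_injective (f := fun F : L.Functions n =>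
      (Sum.inl ⟨n, F⟩ : L.Symbols)) (fun a b h => by
        have h1 := Sum.inl.inj h
        exact eq_of_heq (Sigma.mk.inj h1).2)
  have hr : ∀ n, Nonempty (L.Relations n ↪ κ.out) := by
    intro n
    rw [← Cardinal.le_def, Cardinal.mk_out]
    refine le_trans ?_ K.card_le
    unfold Language.card
    exact Cardinal.mk_le_of_injective (f := fun F : L.Relations n =>
      (Sum.inr ⟨n, F⟩ : L.Symbols)) (fun a b h => by
        have h1 := Sum.inr.inj h
        exact eq_of_heq (Sigma.mk.inj h1).2)
  have f : ∀ n, L.Functions n ↪ κ.out := fun n => (hf n).some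
  have r : ∀ n, L.Relations n ↪ κ.out := fun n => (hr n).some
  let t : Tr L (codeLang (fun n => Set.range (f n)) (fun n => Set.range (r n))) :=
    ⟨fun n => Equiv.ofInjective (f n) (f n).injective,
      fun n => Equiv.ofInjective (r n) (r n).injective⟩
  exact ⟨_, _, renK t K, ofM t K, fun A => Equiv.refl _, fun A B f => fwd t K A B f,
    fun A B g => bwd t K A B g, fun A0 => srj t K A0⟩

end Pool.Agent.AFX.H2
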